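import Pool.Agent.Y142.ZI.Stm2

/-!
# Project OI (helper282), job OI-CAY: an open image has full Lie algebra (Cayley transforms)

Adapted from Pool/Agent/Y710/ZS/Tans.lean.
-/

set_option autoImplicit false

open Matrix Polynomial Filter Topology
open Pool.Agent.Y142.ZO Pool.Agent.Y142.ZI

namespace Pool.Agent.Q153.OI.CAY

theorem t : S_CAY := by
  intro ℓ _ N G _ ρ B hB _ hopen X hX
  obtain ⟨ε, hε, hopen⟩ := hopen
  have hXB : Xᵀ * B = -(B * X) := by
    have h0 : (B * X)ᵀ = -(B * X) := hX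
    rw [transpose_mul, hB] at h0
    exact h0
  -- the parameters
  let h : ℕ → ℚ_[ℓ] := fun n => (2 : ℚ_[ℓ])⁻¹ * (ℓ : ℚ_[ℓ]) ^ n
  have hℓ1 : ‖(ℓ : ℚ_[ℓ])‖ < 1 := by
    rw [Padic.norm_p]
    exact inv_lt_one_of_one_lt₀ (by exact_mod_cast (Fact.out : ℓ.Prime).one_lt)
  have hℓ0 : (ℓ : ℚ_[ℓ]) ≠ 0 := by
    exact_mod_cast (Fact.out : ℓ.Prime).ne_zero
  have hh : Tendsto h atTop (𝓝 0) := by
    have h1 := (tendsto_pow_atTop_nhds_zero_of_norm_lt_one hℓ1).const_mul ((2 : ℚ_[ℓ])⁻¹)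
    rwa [mul_zero] at h1
  let A : ℕ → Matrix (Fin N) (Fin N) ℚ_[ℓ] := fun n => 1 - h n • X
  let D : ℕ → Matrix (Fin N) (Fin N) ℚ_[ℓ] := fun n => 1 + h n • X
  have hA : Tendsto A atTop (𝓝 1) := by
    have h1 : Tendsto (fun n => (1 : Matrix (Fin N) (Fin N) ℚ_[ℓ]) - h n • X) atTop
        (𝓝 (1 - (0 : ℚ_[ℓ]) • X)) := tendsto_const_nhds.sub (hh.smul_const X)
    rwa [zero_smul, sub_zero] at h1
  have hD : Tendsto D atTop (𝓝 1) := by
    have h1 : Tendsto (fun n => (1 : Matrix (Fin N) (Fin N) ℚ_[ℓ]) + h n • X) atTop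
        (𝓝 (1 + (0 : ℚ_[ℓ]) • X)) := tendsto_const_nhds.add (hh.smul_const X)
    rwa [zero_smul, add_zero] at h1
  have hdet : Tendsto (fun n => (A n).det) atTop (𝓝 1) := by
    have h1 := (Continuous.matrix_det (continuous_id (X := Matrix (Fin N) (Fin N) ℚ_[ℓ]))).tendsto 1
    have h2 := h1.comp hA
    simp only [id_eq, det_one] at h2
    exact h2
  have hadj : Tendsto (fun n => (A n).adjugate) atTop (𝓝 1) := by
    have h1 := (Continuous.matrix_adjugate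
      (continuous_id (X := Matrix (Fin N) (Fin N) ℚ_[ℓ]))).tendsto 1
    have h2 := h1.comp hA
    simp only [id_eq, adjugate_one] at h2
    exact h2
  have hinv : Tendsto (fun n => (A n)⁻¹) atTop (𝓝 1) := by
    have h1 : Tendsto (fun n => ((A n).det)⁻¹ • (A n).adjugate) atTop
        (𝓝 ((1 : ℚ_[ℓ])⁻¹ • (1 : Matrix (Fin N) (Fin N) ℚ_[ℓ]))) :=
      (hdet.inv₀ one_ne_zero).smul hadj
    rw [inv_one, one_smul] at h1
    refine h1.congr fun n => ?_
    rw [Matrix.inv_def, Ring.inverse_eq_inv']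
  let g : ℕ → Matrix (Fin N) (Fin N) ℚ_[ℓ] := fun n => D n * (A n)⁻¹
  have hg : Tendsto g atTop (𝓝 1) := by
    have h1 : Tendsto (fun n => D n * (A n)⁻¹) atTop (𝓝 (1 * 1)) := hD.mul hinv
    rwa [one_mul] at h1
  have hne : ∀ᶠ n in atTop, (A n).det ≠ 0 := hdet.eventually_ne one_ne_zero
  have hsmall : ∀ᶠ n in atTop, ∀ i j, ‖(g n - 1) i j‖ < ε := by
    rw [eventually_all]
    intro i
    rw [eventually_all]
    intro j
    have h1 : Tendsto (fun n => ‖(g n - 1) i j‖) atTop (𝓝 0) := by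
      have h2 : Tendsto (fun n => g n - 1) atTop (𝓝 (1 - 1)) := hg.sub_const 1
      rw [sub_self] at h2
      have h3 := ((continuous_apply_apply (ρ := fun _ _ => ℚ_[ℓ]) i j).tendsto
        (0 : Matrix (Fin N) (Fin N) ℚ_[ℓ])).comp h2
      have h4 := h3.norm
      simp only [Matrix.zero_apply, norm_zero] at h4
      exact h4
    exact h1.eventually_lt_const hε
  have hisom : ∀ n, (A n).det ≠ 0 → (g n)ᵀ * B * g n = B := by
    intro n hn
    have hu : IsUnit (A n).det := isUnit_iff_ne_zero.2 hn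
    have h1 : (D n)ᵀ * B = B * A n := by
      show (1 + h n • X)ᵀ * B = B * (1 - h n • X)
      rw [transpose_add, transpose_one, transpose_smul, Matrix.add_mul, Matrix.one_mul,
        Matrix.smul_mul, hXB, Matrix.mul_sub, Matrix.mul_one, Matrix.mul_smul, smul_neg,
        sub_eq_add_neg]
    have h2 : (A n)ᵀ * B = B * D n := by
      show (1 - h n • X)ᵀ * B = B * (1 + h n • X)
      rw [transpose_sub, transpose_one, transpose_smul, Matrix.sub_mul, Matrix.one_mul,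
        Matrix.smul_mul, hXB, Matrix.mul_add, Matrix.mul_one, Matrix.mul_smul, smul_neg,
        sub_neg_eq_add]
    have h3 : A n * D n = D n * A n := by
      show (1 - h n • X) * (1 + h n • X) = (1 + h n • X) * (1 - h n • X)
      exact ((Commute.one_left _).sub_left ((Commute.one_right _).add_right (Commute.refl _))).eq
    have h4 : (D n)ᵀ * B * D n = (A n)ᵀ * B * A n := by
      rw [h1, h2, Matrix.mul_assoc, h3, Matrix.mul_assoc]
    show (D n * (A n)⁻¹)ᵀ * B * (D n * (A n)⁻¹) = B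
    calc (D n * (A n)⁻¹)ᵀ * B * (D n * (A n)⁻¹)
        = ((A n)⁻¹)ᵀ * ((D n)ᵀ * B * D n) * (A n)⁻¹ := by
          rw [transpose_mul]; simp only [Matrix.mul_assoc]
      _ = ((A n)⁻¹)ᵀ * ((A n)ᵀ * B * A n) * (A n)⁻¹ := by rw [h4]
      _ = (A n * (A n)⁻¹)ᵀ * B * (A n * (A n)⁻¹) := by
          rw [transpose_mul]; simp only [Matrix.mul_assoc]
      _ = B := by
          rw [Matrix.mul_nonsing_inv _ hu, transpose_one, Matrix.one_mul, Matrix.mul_one]
  have hquot : ∀ n, (A n).det ≠ 0 →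
      ((ℓ : ℚ_[ℓ]) ^ n)⁻¹ • (g n - 1) = X * (A n)⁻¹ := by
    intro n hn
    have hu : IsUnit (A n).det := isUnit_iff_ne_zero.2 hn
    have h1 : g n - 1 = ((ℓ : ℚ_[ℓ]) ^ n) • (X * (A n)⁻¹) := by
      have h2 : (1 : Matrix (Fin N) (Fin N) ℚ_[ℓ]) = A n * (A n)⁻¹ :=
        (Matrix.mul_nonsing_inv _ hu).symm
      have h3 : D n - A n = ((ℓ : ℚ_[ℓ]) ^ n) • X := by
        show (1 + h n • X) - (1 - h n • X) = _
        rw [add_sub_sub_cancel, ← add_smul]
        congr 1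
        show (2 : ℚ_[ℓ])⁻¹ * (ℓ : ℚ_[ℓ]) ^ n + (2 : ℚ_[ℓ])⁻¹ * (ℓ : ℚ_[ℓ]) ^ n = _
        ring
      show D n * (A n)⁻¹ - 1 = _
      nth_rewrite 1 [h2]
      rw [← Matrix.sub_mul, h3, Matrix.smul_mul]
    rw [h1, smul_smul, inv_mul_cancel₀ (pow_ne_zero _ hℓ0), one_smul]
  -- choose the group elements
  have hchoose : ∀ n, ∃ σ : G, ((A n).det ≠ 0 ∧ ∀ i j, ‖(g n - 1) i j‖ < ε) → ρ σ = g n := by
    intro n
    by_cases hn : (A n).det ≠ 0 ∧ ∀ i j, ‖(g n - 1) i j‖ < ε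
    · obtain ⟨σ, hσ⟩ := hopen (g n) (hisom n hn.1) hn.2
      exact ⟨σ, fun _ => hσ⟩
    · exact ⟨1, fun h => absurd h hn⟩
  choose σ hσ using hchoose
  refine ⟨σ, ?_⟩
  have hlim : Tendsto (fun n => X * (A n)⁻¹) atTop (𝓝 X) := by
    have h1 : Tendsto (fun n => X * (A n)⁻¹) atTop (𝓝 (X * 1)) := tendsto_const_nhds.mul hinv
    rwa [mul_one] at h1
  refine hlim.congr' ?_
  filter_upwards [hne, hsmall] with n h1 h2
  rw [hσ n ⟨h1, h2⟩, hquot n h1]

end Pool.Agent.Q153.OI.CAY
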